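import Pool.Agent.Q51.SZ.Stm
import Pool.Agent.Q124.SZ.VLB
import Pool.Agent.Q277.SZ.NorA
import Pool.Agent.Q239.EL.DESC

/-! Job REL of project SZ (helper51): the relation between two elements of the same type. -/

set_option autoImplicit false

namespace Pool.Agent.Q150.SZ

open Polynomial NumberField IsDedekindDomain Finset
open Pool.Agent.Q51.SZ
open Pool.Agent.Y157.PS (Dec Ine IsU non_add non_mul non_sub non_mem isU_one IsU.not_nonunit IsU.div)
open Pool.Agent.Q51.EL (Abv Setup)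
open Pool.Agent.Q51.SE (Parq)
open Pool.Agent.Q51.ZC (VecP Rel dg)
open Pool.Agent.Q124.SZ (Vl)
open Pool.Agent.Q277.SZ (Wf_eqv Cf_eqv)

section alg

variable {f : ℤ[X]} {A : Type} [Field A]

theorem sub_ne {i j : Rt f A} (h : i ≠ j) : i.1 - j.1 ≠ 0 :=
  sub_ne_zero.2 fun e => h (Subtype.ext e)

theorem Wf_ne {D : ℤ} (hD : (D : A) ≠ 0) (hlc : (f.leadingCoeff : A) ≠ 0) (r i : Rt f A) :
    Wf f D r i ≠ 0 := by
  classical
  unfold Wf
  by_cases h : i = r
  · rw [if_pos h]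
    refine div_ne_zero hD (mul_ne_zero hlc (Finset.prod_ne_zero_iff.2 fun k hk => ?_))
    exact sub_ne (Finset.ne_of_mem_erase hk).symm
  · rw [if_neg h]
    exact sub_ne (Ne.symm h)

theorem Cf_ne {D : ℤ} (hD : (D : A) ≠ 0) (hlc : (f.leadingCoeff : A) ≠ 0) (r i j : Rt f A) :
    Cf f D r i j ≠ 0 :=
  div_ne_zero (Wf_ne hD hlc r i) (Wf_ne hD hlc r j)

open Classical in
theorem prod_Wf {D : ℤ} (hodd : Odd (Fintype.card (Rt f A))) (i : Rt f A) :
    ∏ r, Wf f D r i = (D : A) / (f.leadingCoeff : A) := by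
  have h1 : ∏ r, Wf f D r i = Wf f D i i * ∏ r ∈ univ.erase i, Wf f D r i :=
    (Finset.mul_prod_erase univ _ (mem_univ i)).symm
  have h2 : ∏ r ∈ univ.erase i, Wf f D r i = ∏ r ∈ univ.erase i, (i.1 - r.1) := by
    have h3 : ∀ r ∈ univ.erase i, Wf f D r i = (-1) * (i.1 - r.1) := by
      intro r hr
      unfold Wf
      rw [if_neg (Finset.ne_of_mem_erase hr).symm]
      ring
    have h4 : (-1 : A) ^ (univ.erase i).card = 1 := by
      rw [card_erase_of_mem (mem_univ i), card_univ]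
      exact Even.neg_one_pow (Nat.Odd.sub_odd hodd odd_one)
    rw [prod_congr rfl h3, prod_mul_distrib, prod_const, h4, one_mul]
  have h3 : ∏ r ∈ univ.erase i, (i.1 - r.1) ≠ 0 :=
    Finset.prod_ne_zero_iff.2 fun k hk => sub_ne (Finset.ne_of_mem_erase hk).symm
  rw [h1, h2]
  unfold Wf
  rw [if_pos rfl]
  by_cases hlc : (f.leadingCoeff : A) = 0
  · rw [hlc]
    simp
  · field_simp

theorem prod_Cf {D : ℤ} (hD : (D : A) ≠ 0) (hlc : (f.leadingCoeff : A) ≠ 0)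
    (hodd : Odd (Fintype.card (Rt f A))) (i j : Rt f A) : ∏ r, Cf f D r i j = 1 := by
  unfold Cf
  rw [prod_div_distrib, prod_Wf hodd, prod_Wf hodd, div_self (div_ne_zero hD hlc)]

open Classical in
theorem Wf_scale {D D' : ℤ} (hD : (D : A) ≠ 0) (r i : Rt f A) :
    Wf f D' r i = (if i = r then (D' : A) / D else 1) * Wf f D r i := by
  unfold Wf
  by_cases h : i = r
  · rw [if_pos h, if_pos h, if_pos h, ← mul_div_assoc, div_mul_cancel₀ _ hD]
  · rw [if_neg h, if_neg h, if_neg h, one_mul]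

theorem prod_Cf_scale {D D' : ℤ} (hD : (D : A) ≠ 0) (hD' : (D' : A) ≠ 0) (m : Rt f A → ℤ) (i j : Rt f A) :
    ∏ r, Cf f D' r i j ^ m r = ((D' : A) / D) ^ (m i - m j) * ∏ r, Cf f D r i j ^ m r := by
  classical
  have hc : (D' : A) / D ≠ 0 := div_ne_zero hD' hD
  have h1 : ∀ r : Rt f A, Cf f D' r i j ^ m r =
      ((if i = r then ((D' : A) / D) ^ m r else 1) / (if j = r then ((D' : A) / D) ^ m r else 1)) *
        Cf f D r i j ^ m r := by
    intro r
    unfold Cf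
    rw [Wf_scale hD, Wf_scale (D' := D') hD r j, mul_div_mul_comm, mul_zpow, div_zpow]
    congr 2
    · split_ifs
      · rfl
      · rw [one_zpow]
    · split_ifs
      · rfl
      · rw [one_zpow]
  rw [prod_congr rfl fun r _ => h1 r, prod_mul_distrib, prod_div_distrib, prod_ite_eq, prod_ite_eq,
    if_pos (mem_univ _), if_pos (mem_univ _), zpow_sub₀ hc]

/-- the powers with exponents `m r + e + q n r` -/
theorem prod_split {D : ℤ} (hD : (D : A) ≠ 0) (hlc : (f.leadingCoeff : A) ≠ 0)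
    (hodd : Odd (Fintype.card (Rt f A))) (i j : Rt f A) (q : ℕ) (e : ℤ) (m n μ : Rt f A → ℤ)
    (h : ∀ r, μ r = m r + e + q * n r) :
    ∏ r, Cf f D r i j ^ μ r = (∏ r, Cf f D r i j ^ m r) * (∏ r, Cf f D r i j ^ n r) ^ q := by
  have h1 : ∀ r : Rt f A, Cf f D r i j ^ μ r =
      Cf f D r i j ^ m r * Cf f D r i j ^ e * (Cf f D r i j ^ n r) ^ q := by
    intro r
    have h2 := Cf_ne hD hlc r i j
    rw [h r, zpow_add₀ h2, zpow_add₀ h2, mul_comm (q : ℤ) (n r), zpow_mul, zpow_natCast]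
  rw [prod_congr rfl fun r _ => h1 r, prod_mul_distrib, prod_mul_distrib, prod_pow, prod_zpow,
    prod_Cf hD hlc hodd, one_zpow, mul_one]

end alg

section eqv

variable {f : ℤ[X]} {A : Type} [Field A] [Algebra ℚ A]

theorem prod_eqv (D : ℤ) (σ : A ≃ₐ[ℚ] A) (n : Rt f A → ℤ) (hn : ∀ i : Rt f A, n (σ • i) = n i)
    (i j : Rt f A) : σ (∏ r, Cf f D r i j ^ n r) = ∏ r, Cf f D r (σ • i) (σ • j) ^ n r := by
  rw [map_prod]
  have h1 : ∀ r : Rt f A, σ (Cf f D r i j ^ n r) =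
      (fun r : Rt f A => Cf f D r (σ • i) (σ • j) ^ n r) (MulAction.toPerm σ r) := by
    intro r
    change σ (Cf f D r i j ^ n r) = Cf f D (σ • r) (σ • i) (σ • j) ^ n (σ • r)
    rw [map_zpow₀, Cf_eqv, hn]
  rw [prod_congr rfl fun r _ => h1 r]
  exact Equiv.prod_comp (MulAction.toPerm σ) (fun r : Rt f A => Cf f D r (σ • i) (σ • j) ^ n r)

end eqv

section val

variable {A : Type} [Field A] {V : ValuationSubring A} {l : ℕ}

theorem pow_non {x : A} (hx : x ∈ V.nonunits) : ∀ {n : ℕ}, 0 < n → x ^ n ∈ V.nonunits := by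
  intro n hn
  obtain ⟨m, rfl⟩ : ∃ m, n = m + 1 := ⟨n - 1, by omega⟩
  rw [pow_succ]
  exact non_mul (pow_mem (non_mem hx) m) hx

theorem l_pow_unit (hl : (l : A) ∈ V.nonunits) {k : ℤ} (h : IsU V ((l : A) ^ k)) : k = 0 := by
  obtain ⟨m, rfl | rfl⟩ := k.eq_nat_or_neg
  · rw [zpow_natCast] at h
    by_contra hk
    exact h.not_nonunit (pow_non hl (by omega))
  · rw [zpow_neg, zpow_natCast] at h
    by_contra hk
    have h1 := Pool.Agent.Y157.PS.IsU.inv h
    rw [inv_inv] at h1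
    exact h1.not_nonunit (pow_non hl (by omega))

theorem Vl_unique (hl0 : (l : A) ≠ 0) (hl : (l : A) ∈ V.nonunits) {a : A} {d e : ℤ}
    (h : Vl V l a d) (h' : Vl V l a e) : d = e := by
  have h1 : IsU V ((l : A) ^ (e - d)) := by
    have h2 := IsU.div h h'
    have ha : a ≠ 0 := by
      rintro rfl
      exact h.1 (zero_div _)
    have h3 : a / (l : A) ^ d / (a / (l : A) ^ e) = (l : A) ^ (e - d) := by
      rw [zpow_sub₀ hl0]
      have h4 : (l : A) ^ d ≠ 0 := zpow_ne_zero _ hl0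
      have h5 : (l : A) ^ e ≠ 0 := zpow_ne_zero _ hl0
      field_simp
    rwa [h3] at h2
  have h2 := l_pow_unit hl h1
  omega

theorem mul_close {a b : A} (ha : 1 - a ∈ V.nonunits) (hb : 1 - b ∈ V.nonunits) :
    1 - a * b ∈ V.nonunits := by
  have h1 : a ∈ V := by
    have h2 := V.sub_mem (one_mem V) (non_mem ha)
    rwa [sub_sub_cancel] at h2
  have h2 : 1 - a * b = (1 - a) + a * (1 - b) := by ring
  rw [h2]
  exact non_add ha (non_mul h1 hb)

theorem pow_close {a : A} (ha : 1 - a ∈ V.nonunits) (n : ℕ) : 1 - a ^ n ∈ V.nonunits := by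
  induction n with
  | zero =>
    rw [pow_zero, sub_self, ValuationSubring.mem_nonunits_iff, map_zero]
    exact zero_lt_one
  | succ n ih =>
    rw [pow_succ]
    exact mul_close ih ha

theorem close_ne {z w : A} (hz : z ≠ 0) (h : (z - w) / z ∈ V.nonunits) : w ≠ 0 := by
  rintro rfl
  rw [sub_zero, div_self hz] at h
  exact isU_one.not_nonunit h

end val

theorem alg1 {A : Type} [Field A] {a a' b b' P N N' E X Y : A} (_ha : a ≠ 0) (hb : b ≠ 0) (hb' : b' ≠ 0)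
    (hP : P ≠ 0) (hN : N ≠ 0) (hE : E ≠ 0) (hX : X ≠ 0)
    (h : a' / b' * (P * N) * E = a / b * (Y / X * P * N')) :
    a' = b' / b * X⁻¹ * Y * (N' / (N * E)) * a := by
  field_simp at h ⊢
  linear_combination h

theorem alg2 {A : Type} [Field A] {S C G a s g : A} (ha : a ≠ 0) (hS : S ≠ 0) (hC : C ≠ 0)
    (hG : G ≠ 0) : (S * C * G * a - s * C * g * a) / (S * C * G * a) = 1 - s / S * (g / G) := by
  field_simp

theorem rel (h : S_APX) : S_REL := by
  intro f L _ _ θ hset hodd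
  obtain ⟨B1, hB1, hapx⟩ := h f L θ hset
  refine ⟨B1, hB1, ?_⟩
  intro q B hB1B hq hqf A _ _ _ hG J hJ l V hAt π hπ j0 hj0 D D' hD hD2 hD' hD'2 μ μ' E hμ hE hEe
    δ δ' hδ hδ' hPV hPV' hrel M hM hM'
  classical
  have : CharZero A := algebraRat.charZero A
  have hl := hAt.pr
  have hl0 : (l : A) ≠ 0 := by exact_mod_cast hl.ne_zero
  have hDz : D ≠ 0 := by
    rintro rfl
    exact hD2 (dvd_zero _)
  have hDz' : D' ≠ 0 := by
    rintro rfl
    exact hD'2 (dvd_zero _)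
  have hDA : (D : A) ≠ 0 := by exact_mod_cast hDz
  have hDA' : (D' : A) ≠ 0 := by exact_mod_cast hDz'
  have hlc : (f.leadingCoeff : A) ≠ 0 := (hG.lc l V hAt).1
  have hcard : Odd (Fintype.card (Rt f A)) := by
    have h1 : Fintype.card (Rt f A) = (rts f A).card := Fintype.card_coe _
    rw [h1, hG.crd]
    exact hodd
  -- the action on the embeddings
  have hJs : ∀ (σ : A ≃ₐ[ℚ] A) (i : Rt f A) (z : L), σ (J i z) = J (σ • i) z := by
    intro σ i z
    obtain ⟨d, rfl⟩ := Pool.Agent.Q239.EL.theta_surj hset z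
    have h1 : J i (aeval θ d) = aeval i.1 d := by rw [← aeval_algHom_apply, hJ]
    have h2 : J (σ • i) (aeval θ d) = aeval (σ • i).1 d := by rw [← aeval_algHom_apply, hJ]
    rw [h1, h2, smul_val]
    exact (aeval_algHom_apply (σ : A →ₐ[ℚ] A) i.1 d).symm
  have hJne : ∀ (i : Rt f A) {z : L}, z ≠ 0 → J i z ≠ 0 := fun i z hz =>
    (map_ne_zero_iff _ (J i).injective).2 hz
  -- the exponents
  have hexp : ∀ (δ : L) (μ : Rt f A → ℤ), (∀ i, PV q V l (J i δ) (μ i)) →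
      (∀ σ : A ≃ₐ[ℚ] A, Dec V σ → ∀ i : Rt f A, μ (σ • i) = μ i) →
      (∃ e : ℤ, VecP q l δ (fun v => M v + e)) →
      ∃ (e : ℤ) (n : Rt f A → ℤ), (∀ i, μ i = M (π i) + e + q * n i) ∧
        ∀ σ : A ≃ₐ[ℚ] A, Dec V σ → ∀ i : Rt f A, n (σ • i) = n i := by
    rintro δ μ h1 h2 ⟨e, he⟩
    have h3 : ∀ i, ∃ n : ℤ, μ i = M (π i) + e + q * n := by
      intro i
      obtain ⟨k, hk⟩ := h1 i
      obtain ⟨k', hk'⟩ := he (π i) (hπ.abv i)
      have h4 := (hπ.val i δ _).1 hk'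
      have h5 := Vl_unique hl0 hAt.ab hk h4
      exact ⟨k' - k, by linarith⟩
    choose n hn using h3
    refine ⟨e, n, hn, ?_⟩
    intro σ hσ i
    have h4 := hn (σ • i)
    rw [h2 σ hσ, hn i, hπ.inv σ hσ] at h4
    have h5 : (q : ℤ) * n i = q * n (σ • i) := by linarith
    have hq0 : (q : ℤ) ≠ 0 := by exact_mod_cast hq.ne_zero
    exact (mul_left_cancel₀ hq0 h5).symm
  obtain ⟨e, n, hn, hninv⟩ := hexp δ μ hPV (fun σ hσ i => (hμ σ hσ i).1) hM
  obtain ⟨e', n', hn', hninv'⟩ := hexp δ' μ' hPV' (fun σ hσ i => (hμ σ hσ i).2) hM'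
  -- the relation
  let m : Rt f A → ℤ := fun i => M (π i)
  obtain ⟨c, hc⟩ : ∃ c : A, c = (D' : A) / D := ⟨_, rfl⟩
  have hc0 : c ≠ 0 := by rw [hc]; exact div_ne_zero hDA' hDA
  let G : Rt f A → A := fun i => (∏ r, Cf f D' r i j0 ^ n' r) / ((∏ r, Cf f D r i j0 ^ n r) * E i j0)
  have hG0 : ∀ i, G i ≠ 0 := fun i => div_ne_zero
    (Finset.prod_ne_zero_iff.2 fun r _ => zpow_ne_zero _ (Cf_ne hDA' hlc r i j0))
    (mul_ne_zero (Finset.prod_ne_zero_iff.2 fun r _ => zpow_ne_zero _ (Cf_ne hDA hlc r i j0)) (hE i j0))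
  let S : A := J j0 δ' / J j0 δ * c ^ (-m j0)
  have hS0 : S ≠ 0 := mul_ne_zero (div_ne_zero (hJne j0 hδ') (hJne j0 hδ)) (zpow_ne_zero _ hc0)
  have key : ∀ i, J i δ' = S * c ^ m i * G i ^ q * J i δ := by
    intro i
    have h1 := hrel i j0
    rw [prod_split hDA hlc hcard i j0 q e m n μ hn, prod_split hDA' hlc hcard i j0 q e' m n' μ' hn',
      prod_Cf_scale hDA hDA' m i j0, ← hc] at h1
    have hP0 : ∏ r, Cf f D r i j0 ^ m r ≠ 0 :=
      Finset.prod_ne_zero_iff.2 fun r _ => zpow_ne_zero _ (Cf_ne hDA hlc r i j0)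
    have hN0 : ∏ r, Cf f D r i j0 ^ n r ≠ 0 :=
      Finset.prod_ne_zero_iff.2 fun r _ => zpow_ne_zero _ (Cf_ne hDA hlc r i j0)
    have e1 : G i = (∏ r, Cf f D' r i j0 ^ n' r) / ((∏ r, Cf f D r i j0 ^ n r) * E i j0) := rfl
    have e2 : S = J j0 δ' / J j0 δ * c ^ (-m j0) := rfl
    rw [zpow_sub₀ hc0] at h1
    rw [e1, e2, div_pow, mul_pow, zpow_neg]
    exact alg1 (hJne i hδ) (hJne j0 hδ) (hJne j0 hδ') hP0 (pow_ne_zero _ hN0)
      (pow_ne_zero _ (hE i j0)) (zpow_ne_zero _ hc0) h1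
  -- the equivariance
  have hcfix : ∀ σ : A ≃ₐ[ℚ] A, σ c = c := by
    intro σ
    rw [hc, map_div₀, map_intCast, map_intCast]
  have hSfix : ∀ σ : A ≃ₐ[ℚ] A, Dec V σ → σ S = S := by
    intro σ hσ
    change σ (J j0 δ' / J j0 δ * c ^ (-m j0)) = _
    rw [map_mul, map_div₀, map_zpow₀, hJs, hJs, hj0 σ hσ, hcfix]
  have hGfix : ∀ i, ∀ σ : A ≃ₐ[ℚ] A, Dec V σ → σ • i = i → σ (G i) = G i := by
    intro i σ hσ hi
    change σ ((∏ r, Cf f D' r i j0 ^ n' r) / ((∏ r, Cf f D r i j0 ^ n r) * E i j0)) = _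
    rw [map_div₀, map_mul, prod_eqv D' σ n' (hninv' σ hσ), prod_eqv D σ n (hninv σ hσ), hEe σ hσ,
      hi, hj0 σ hσ]
  -- the rational numbers
  obtain ⟨s1, hs1⟩ := (hapx q B hB1B hq A hG J hJ l V hAt S hS0).2 hSfix
  have hs10 : s1 ≠ 0 := by
    intro h0
    have h1 := close_ne hS0 hs1
    rw [h0, map_zero] at h1
    exact h1 rfl
  have hDQ : (D : ℚ) ≠ 0 := by exact_mod_cast hDz
  have hDQ' : (D' : ℚ) ≠ 0 := by exact_mod_cast hDz'
  have hc2 : algebraMap ℚ A ((D' : ℚ) / D) = c := by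
    rw [hc, map_div₀, map_intCast, map_intCast]
  have hval : padicValRat l ((D' : ℚ) / D) = 0 := by
    have hfl : Fact l.Prime := ⟨hl⟩
    have hv : ∀ z : ℤ, z ≠ 0 → (l : ℤ) ∣ z → ¬ (l : ℤ) ^ 2 ∣ z → padicValInt l z = 1 := by
      intro z hz h1 h2
      have h3 : 1 ≤ padicValInt l z := by
        have := (padicValInt_dvd_iff 1 z).1 (by simpa using h1)
        tauto
      have h4 : ¬ 2 ≤ padicValInt l z := by
        intro h4
        exact h2 ((padicValInt_dvd_iff 2 z).2 (Or.inr h4))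
      omega
    rw [padicValRat.div hDQ' hDQ, padicValRat.of_int, padicValRat.of_int, hv D hDz hD hD2,
      hv D' hDz' hD' hD'2]
    simp
  refine ⟨s1, (D' : ℚ) / D, hs10, div_ne_zero hDQ' hDQ, hval, ?_⟩
  intro v hv
  obtain ⟨i, rfl⟩ := hπ.sur v hv
  obtain ⟨g, hg⟩ := (hapx q B hB1B hq A hG J hJ l V hAt (G i) (hG0 i)).1 i (hGfix i)
  have hg0 : g ≠ 0 := by
    rintro rfl
    exact close_ne (hG0 i) hg (map_zero _)
  refine ⟨g, hg0, ?_⟩
  refine hπ.lt i _ _ hδ' ?_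
  have e1 : J i (δ' - (s1 : L) * (((D' : ℚ) / D : ℚ) : L) ^ M (π i) * g ^ q * δ) =
      S * c ^ m i * G i ^ q * J i δ - algebraMap ℚ A s1 * c ^ m i * J i g ^ q * J i δ := by
    rw [map_sub, map_mul, map_mul, map_mul, map_zpow₀, map_pow, ← key i]
    have e2 : J i ((s1 : ℚ) : L) = algebraMap ℚ A s1 := by
      have := (J i).commutes s1
      rwa [eq_ratCast (algebraMap ℚ L) s1] at this
    have e3 : J i ((((D' : ℚ) / D : ℚ)) : L) = c := by
      have := (J i).commutes ((D' : ℚ) / D)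
      rw [eq_ratCast (algebraMap ℚ L) _] at this
      rw [this, hc2]
    rw [e2, e3]
  rw [e1, key i, alg2 (hJne i hδ) hS0 (zpow_ne_zero _ hc0) (pow_ne_zero _ (hG0 i)), ← div_pow]
  have h1 : 1 - algebraMap ℚ A s1 / S ∈ V.nonunits := by
    have e2 : 1 - algebraMap ℚ A s1 / S = (S - algebraMap ℚ A s1) / S := by
      rw [sub_div, div_self hS0]
    rw [e2]
    exact hs1
  have h2 : 1 - J i g / G i ∈ V.nonunits := by
    have e2 : 1 - J i g / G i = (G i - J i g) / G i := by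
      rw [sub_div, div_self (hG0 i)]
    rw [e2]
    exact hg
  exact mul_close h1 (pow_close h2 q)

end Pool.Agent.Q150.SZ
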